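import Pool.Agent.Work.CB2.Ex
import Pool.Agent.Work.CB2.G
import Pool.Agent.Work.CB2.S2
import Pool.Agent.Work.CB2.LS

/-!
Two partitions of a pyramid with the same combinatorial and the same order type and different
dimensions of the spline spaces.
-/

namespace Pool.Agent.Results.MP_cbacdf_an.CubicTermsNeeded

open Pool.CB

/-- There are two tetrahedral partitions `Δ` and `Δ'` of convex bodies, with sixteen tetrahedra
each, which differ in the position of one vertex only: `Δ'` is the image of `Δ` under a map `f`
which fixes all points but one. All quadruples of vertices have the same orientation (positive,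
negative or coplanar) before and after the motion, there are no singular edges, and the spaces of
quadratic splines on the stars of corresponding vertices have the same dimension. Nevertheless
`dim S_k^1(Δ) = dim S_k^1(Δ') + 1` for all `k ≥ 3`, in particular for all `k ≥ 9`.

In the proof `Δ` and `Δ'` are pyramids with apex `(0, 0, 0)` over the rectangle with the vertices
`(± 60, ± 165, 1)`, and one vertex moves from `(45, 0, 1)` to `(44, 0, 1)`. -/
theorem result : ∃ (Δ Δ' : TetComplex) (f : E3 → E3),
    Δ.tets.card = 16 ∧ Convex ℝ Δ.space ∧ Convex ℝ Δ'.space ∧ Δ.EulerBall ∧ Δ'.EulerBall ∧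
    Set.InjOn f Δ.vertices ∧ (∃ p, ∀ v, v ≠ p → f v = v) ∧
    Δ'.tets = Δ.tets.image (fun t => t.image f) ∧
    (∀ a ∈ Δ.vertices, ∀ b ∈ Δ.vertices, ∀ c ∈ Δ.vertices, ∀ d ∈ Δ.vertices,
      SignType.sign (dt (f a) (f b) (f c) (f d)) = SignType.sign (dt a b c d)) ∧
    (∀ e, ¬ Δ.IsSingular e) ∧ (∀ e, ¬ Δ'.IsSingular e) ∧
    (∀ v ∈ Δ.vertices, Module.finrank ℝ ((Δ'.star (f v)).splines 2)
      = Module.finrank ℝ ((Δ.star v).splines 2)) ∧
    ∀ k : ℕ, 3 ≤ k →
      Module.finrank ℝ (Δ.splines k) = Module.finrank ℝ (Δ'.splines k) + 1 :=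
  ex_main blk_G blk_S2 blk_LO blk_LS

end Pool.Agent.Results.MP_cbacdf_an.CubicTermsNeeded
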