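import Pool.Agent.Work.CB2.Final
import Pool.Agent.Work.CB2.S2
import Pool.Agent.Work.CB2.S3

/-!
The dimension of the spaces of continuously differentiable splines of degree at least nine on
arbitrary tetrahedral complexes, in terms of explicit linear systems.
-/

namespace Pool.Agent.Results.MP_cbacdf_an.ExplicitFormula

open Pool.CB

/-- For every tetrahedral complex `Δ` and every `k ≥ 9` the space `S_k^1(Δ)` has dimension
`N_k(Δ) + (k - 7) s + ∑ (q_v + c_v + h_v)`, the sum over all vertices `v`. Here `N_k` is
`TetComplex.count`, `s` is the number of singular edges, and `q_v`, `c_v`, `h_v` are the dimensions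
of the spaces of solutions `quadS v`, `cubicS v`, `quarticS v` of three explicit homogeneous linear
systems, which do not depend on `k`. They have one unknown for each triangle `v p q` (`quadS`), for
each inner triangle `v p q` (`cubicS`), for each inner triangle `v p q` with one of its edges `v p`
(`quarticS`), and their coefficients are `0`, `1`, `-1`, the coordinates of the `q - v` and the
numbers `gcoef v p q`. The numbers `q_v`, `q_v + c_v`, `q_v + c_v + h_v` are the differences between
the dimensions of the spaces of quadratic, cubic and quartic splines on the star of `v` and `N_2`,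
`N_3` and `N_4` of the star. Moreover `h_v` is at least the number of singular edges at `v`, with
equality if `v` is not exceptional. For a ball `N_k(Δ)` is the generic dimension. -/
theorem result (Δ : TetComplex) {k : ℕ} (hk : 9 ≤ k) :
    FiniteDimensional ℝ (Δ.splines k) ∧
    (Module.finrank ℝ (Δ.splines k) : ℚ) = Δ.count k + (k - 7) * {e | Δ.IsSingular e}.ncard
      + ∑ v ∈ Δ.vertices, (Δ.qDim v + Δ.cDim v + Δ.hDim v) ∧
    (∀ v ∈ Δ.vertices,
      Δ.starExcess 2 v = Δ.qDim v ∧ Δ.starExcess 3 v = Δ.qDim v + Δ.cDim v ∧
      Δ.starExcess 4 v = Δ.qDim v + Δ.cDim v + Δ.hDim v ∧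
      Δ.singularAt v ≤ Δ.hDim v ∧ (¬ Δ.IsExceptional v → Δ.hDim v = Δ.singularAt v)) ∧
    (Δ.EulerBall → Δ.count k = 1 + 5 * k - 2 * k ^ 2 + k * (k - 1) * Δ.bdVertices.ncard
      + 3 * (k - 1) * ((Δ.faces 1).ncard - Δ.bdVertices.ncard)
      + k * (k - 1) * (k - 5) / 6 * (Δ.faces 4).ncard) := by
  refine ⟨finite_splines' Δ (by omega), ?_, fun v hv => ?_, fun hB => count_ball Δ hB k⟩
  · rw [dim_explicit Δ blk_S2 blk_S3 hk]
    push_cast
    rfl
  · obtain ⟨h1, h2, h3⟩ := star_all Δ blk_S2 blk_S3 v
    refine ⟨?_, ?_, ?_, quartic_ge Δ blk_S2 blk_S3 v, fun hE =>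
      quartic_eq Δ blk_S2 blk_S3 hv hE⟩
    · unfold TetComplex.starExcess TetComplex.qDim
      linarith
    · unfold TetComplex.starExcess TetComplex.qDim TetComplex.cDim
      linarith
    · unfold TetComplex.starExcess TetComplex.qDim TetComplex.cDim TetComplex.hDim
      linarith

end Pool.Agent.Results.MP_cbacdf_an.ExplicitFormula
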