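import Pool.Agent.Work.CB3.Crit

/-!
Open vertex stars: the excess of the spline spaces on the star is a concave function of the degree,
and a dimension formula for partitions in which it is at most one.
-/

namespace Pool.Agent.Results.MP_cbacdf_an.OpenStars

open Pool.CB

/-- Let `e_j = dim S_j^1(star v) - N_j(star v)` (`starExcess j v`) and let `s_v` (`singularAt v`) be
the number of singular edges at `v`. If the star of `v` is open (for instance if `v` is a boundary
vertex of a ball), then `s_v ≤ e_4 - e_3 ≤ e_3 - e_2 ≤ e_2`, and if moreover `e_2 ≤ 1`, then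
`e_3 - e_2 = e_4 - e_3 = s_v`.
Consequently, if at every vertex `v` of `Δ` either `e_2 = 0`, or the star of `v` is open and
`e_2 = 1`, then `dim S_k^1(Δ) = N_k(Δ) + (k - 3) s + ∑ (dim S_2^1(star v) - N_2(star v))` for all
`k ≥ 9`, where `s` is the number of singular edges. -/
theorem result (Δ : TetComplex) :
    (∀ v ∈ Δ.vertices, Δ.OpenStar v →
      (Δ.singularAt v : ℚ) ≤ Δ.starExcess 4 v - Δ.starExcess 3 v ∧
      Δ.starExcess 4 v - Δ.starExcess 3 v ≤ Δ.starExcess 3 v - Δ.starExcess 2 v ∧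
      Δ.starExcess 3 v - Δ.starExcess 2 v ≤ Δ.starExcess 2 v ∧
      (Δ.starExcess 2 v ≤ 1 → Δ.starExcess 3 v - Δ.starExcess 2 v = Δ.singularAt v ∧
        Δ.starExcess 4 v - Δ.starExcess 3 v = Δ.singularAt v)) ∧
    ((∀ v ∈ Δ.vertices, Δ.starExcess 2 v = 0 ∨ (Δ.OpenStar v ∧ Δ.starExcess 2 v = 1)) →
      ∀ k : ℕ, 9 ≤ k →
        (Module.finrank ℝ (Δ.splines k) : ℚ) = Δ.count k
          + (k - 3) * {e | Δ.IsSingular e}.ncard + ∑ v ∈ Δ.vertices, Δ.starExcess 2 v) :=
  ⟨fun _ _ ho => open_chain Δ ho, fun hq _ hk => open_dim Δ hq hk⟩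

end Pool.Agent.Results.MP_cbacdf_an.OpenStars
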