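import Pool.Agent.Work.CB3.Final

/-!
Continuously differentiable splines of degree at least nine on tetrahedral complexes: the excess of
the dimension over the generic value is controlled by the quadratic splines on the vertex stars.
-/

namespace Pool.Agent.Results.MP_cbacdf_an.QuadraticControl

open Pool.CB

/-- Let `Δ` be a tetrahedral complex, `k ≥ 9`, `N_k(Δ)` the number `TetComplex.count`, `s` the
number of singular edges, and for a vertex `v` let `e_j(v)` be the difference `starExcess j v`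
between the dimension of `S_j^1` of the star of `v` and `N_j` of this star (`N_2` is four times the
number of vertices minus the number of edges of the star). Put `Q = ∑ e_2(v)`, the sum over all
vertices `v`. Then `e_2 ≥ 0`, `e_2 ≤ e_3 ≤ 5 e_2`, `e_3 ≤ e_4 ≤ 17 e_2` at all vertices, `s ≤ 6 Q`,
`N_k(Δ) + (k - 5) s + Q ≤ dim S_k^1(Δ) ≤ N_k(Δ) + (k - 7) s + 17 Q`, and `dim S_k^1(Δ) = N_k(Δ)` if
and only if `e_2(v) = 0` for all vertices `v`. For a ball `N_k(Δ)` is the generic dimension. -/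
theorem result (Δ : TetComplex) {k : ℕ} (hk : 9 ≤ k) :
    FiniteDimensional ℝ (Δ.splines k) ∧
    ((Module.finrank ℝ (Δ.splines k) : ℚ) = Δ.count k ↔
      ∀ v ∈ Δ.vertices, Δ.starExcess 2 v = 0) ∧
    (Δ.count k + (k - 5) * {e | Δ.IsSingular e}.ncard + ∑ v ∈ Δ.vertices, Δ.starExcess 2 v
      ≤ Module.finrank ℝ (Δ.splines k)) ∧
    ((Module.finrank ℝ (Δ.splines k) : ℚ) ≤ Δ.count k + (k - 7) * {e | Δ.IsSingular e}.ncard
      + 17 * ∑ v ∈ Δ.vertices, Δ.starExcess 2 v) ∧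
    (({e | Δ.IsSingular e}.ncard : ℚ) ≤ 6 * ∑ v ∈ Δ.vertices, Δ.starExcess 2 v) ∧
    (∀ v ∈ Δ.vertices, 0 ≤ Δ.starExcess 2 v ∧ Δ.starExcess 2 v ≤ Δ.starExcess 3 v ∧
      Δ.starExcess 3 v ≤ 5 * Δ.starExcess 2 v ∧ Δ.starExcess 3 v ≤ Δ.starExcess 4 v ∧
      Δ.starExcess 4 v ≤ 17 * Δ.starExcess 2 v) ∧
    (Δ.EulerBall → Δ.count k = 1 + 5 * k - 2 * k ^ 2 + k * (k - 1) * Δ.bdVertices.ncard
      + 3 * (k - 1) * ((Δ.faces 1).ncard - Δ.bdVertices.ncard)
      + k * (k - 1) * (k - 5) / 6 * (Δ.faces 4).ncard) := by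
  obtain ⟨b1, b2, b3⟩ := qc_bounds Δ hk
  exact ⟨finite_splines' Δ (by omega), qc_criterion Δ hk, b1, b2, b3, fun v _ => qc_star Δ v,
    fun hB => count_ball Δ hB k⟩

end Pool.Agent.Results.MP_cbacdf_an.QuadraticControl
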